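import Pool.Agent.Helper17.SO.Stmts

/-! BPERM: the permutation of the blocks induced by a fixed-point-free automorphism. -/

open Finset

namespace Pool.Agent.Helper17.SO

theorem bperm_det (v k lam : ℕ) (B : Fin v → Finset (Fin v)) (h1 : 1 ≤ lam) (h2 : lam < k)
    (hA : inc B * (inc B).transpose = ((k : ℤ) - lam) • (1 : Matrix (Fin v) (Fin v) ℤ) +
      (lam : ℤ) • Matrix.of (fun _ _ => (1 : ℤ))) : (inc B).det ≠ 0 := by
  intro h
  rw [← Matrix.det_transpose] at h
  obtain ⟨x, hx, hx0⟩ := Matrix.exists_mulVec_eq_zero_iff.2 h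
  have e1 : x ⬝ᵥ ((inc B * (inc B).transpose).mulVec x) = 0 := by
    rw [← Matrix.mulVec_mulVec, hx0, Matrix.mulVec_zero, dotProduct_zero]
  rw [hA, Matrix.add_mulVec, Matrix.smul_mulVec, Matrix.smul_mulVec, Matrix.one_mulVec,
    dotProduct_add, dotProduct_smul, dotProduct_smul] at e1
  have e2 : x ⬝ᵥ ((Matrix.of (fun _ _ => (1 : ℤ)) : Matrix (Fin v) (Fin v) ℤ).mulVec x) =
      (∑ i, x i) * ∑ i, x i := by
    simp only [dotProduct, Matrix.mulVec, Matrix.of_apply, one_mul]
    rw [Finset.sum_mul]
  rw [e2, smul_eq_mul, smul_eq_mul] at e1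
  have e3 : 0 < x ⬝ᵥ x := by
    obtain ⟨i, hi⟩ := Function.ne_iff.1 hx
    have : x i * x i ≤ ∑ j, x j * x j :=
      Finset.single_le_sum (f := fun j => x j * x j) (fun j _ => mul_self_nonneg (x j))
        (Finset.mem_univ i)
    have h0 : 0 < x i * x i := mul_self_pos.2 hi
    exact lt_of_lt_of_le h0 this
  have h4 : (0 : ℤ) < (k : ℤ) - lam := by
    have : (lam : ℤ) < k := by exact_mod_cast h2
    linarith
  have h5 : 0 < ((k : ℤ) - lam) * (x ⬝ᵥ x) := mul_pos h4 e3
  have h6 : 0 ≤ (lam : ℤ) * ((∑ i, x i) * ∑ i, x i) :=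
    mul_nonneg (by positivity) (mul_self_nonneg _)
  linarith

theorem bperm_inj (v k lam : ℕ) (B : Fin v → Finset (Fin v)) (h1 : 1 ≤ lam) (h2 : lam < k)
    (hA : inc B * (inc B).transpose = ((k : ℤ) - lam) • (1 : Matrix (Fin v) (Fin v) ℤ) +
      (lam : ℤ) • Matrix.of (fun _ _ => (1 : ℤ))) : Function.Injective B := by
  intro i j hij
  by_contra hne
  apply bperm_det v k lam B h1 h2 hA
  apply Matrix.exists_mulVec_eq_zero_iff.1
  refine ⟨Pi.single i 1 - Pi.single j 1, ?_, ?_⟩
  · intro h0
    have := congrFun h0 i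
    rw [Pi.sub_apply, Pi.single_eq_same, Pi.single_eq_of_ne hne] at this
    simp at this
  · rw [Matrix.mulVec_sub, Matrix.mulVec_single_one, Matrix.mulVec_single_one]
    ext a
    simp [inc, hij]

theorem st_BPERM (hINC : ST_INC) : ST_BPERM := by
  intro v k lam q B h1 hk hkv hS hq hlq hqv g hgq hg hB
  obtain ⟨hlk, harith, hA, -, -⟩ := hINC v k lam B h1 hk hkv hS
  have hinj := bperm_inj v k lam B h1 hlk hA
  choose p hp using hB
  have pinj : Function.Injective p := by
    intro i j hij
    apply hinj
    apply Finset.image_injective g.injective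
    rw [← hp i, ← hp j, hij]
  have pbij : Function.Bijective p := Finite.injective_iff_bijective.1 pinj
  have hpow : ∀ n : ℕ, ∀ i, B (((Equiv.ofBijective p pbij) ^ n) i) = (B i).image (g ^ n) := by
    intro n
    induction n with
    | zero =>
      intro i
      simp
    | succ n ih =>
      intro i
      rw [pow_succ', Equiv.Perm.mul_apply, Equiv.ofBijective_apply, hp, ih, Finset.image_image,
        pow_succ']
      rfl
  refine ⟨Equiv.ofBijective p pbij, ?_, ?_, ?_⟩
  · ext1 i
    apply hinj
    rw [hpow, hgq]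
    simp
  · intro i hi
    rw [Equiv.ofBijective_apply] at hi
    have hBi : B i = (B i).image g := by
      have := hp i
      rwa [hi] at this
    have hmap : ∀ a : Fin v, a ∈ B i → g a ∈ B i := by
      intro a ha
      rw [hBi]
      exact Finset.mem_image_of_mem g ha
    have hqk : q ∣ k := by
      have : Fact q.Prime := ⟨hq⟩
      let f : Function.End {a // a ∈ B i} := fun a => ⟨g a.1, hmap a.1 a.2⟩
      have hfn : ∀ n : ℕ, ∀ a : {a // a ∈ B i}, ((f ^ n : Function.End {a // a ∈ B i}) a).1 =
          (g ^ n) a.1 := by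
        intro n
        induction n with
        | zero =>
          intro a
          rfl
        | succ n ih =>
          intro a
          rw [pow_succ', pow_succ', Equiv.Perm.mul_apply, ← ih]
          rfl
      have hf : f ^ q ^ 1 = 1 := by
        rw [pow_one]
        funext a
        apply Subtype.ext
        rw [hfn, hgq]
        rfl
      have hc := Equiv.Perm.card_fixedPoints_modEq hf
      have h0 : Fintype.card (Function.fixedPoints f) = 0 := by
        rw [Fintype.card_eq_zero_iff]
        constructor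
        rintro ⟨a, ha⟩
        apply hg a.1
        exact congrArg Subtype.val ha
      rw [h0, Fintype.card_coe, hS.size i] at hc
      exact (Nat.modEq_zero_iff_dvd).1 hc
    have hql : q ∣ lam := by
      have e1 : q ∣ lam * v + k := dvd_add (Dvd.dvd.mul_left hqv lam) hqk
      rw [harith] at e1
      exact (Nat.dvd_add_right (Dvd.dvd.mul_left hqk k)).1 e1
    have := Nat.le_of_dvd (by omega) hql
    omega
  · intro a i
    rw [Equiv.ofBijective_apply, hp]
    exact g.injective.mem_finset_image

end Pool.Agent.Helper17.SO
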